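import Pool.Agent.KK.StmtsB2

/-! Squad KK, row B_CNV: dictionary between states and labelled tuples. -/

set_option autoImplicit false

namespace Pool.Agent.KK.B.H19

open Function
open scoped Classical

section
variable {V : Type} {d : ℕ}

theorem idx_last (i : Fin (d + 2)) : i + 1 + Fin.last (d + 1) = i := by
  rw [add_assoc, add_comm 1, Fin.last_add_one, add_zero]

theorem idx_step (i : Fin (d + 2)) (m m' : Fin (d + 2)) (h : m + 1 = m') :
    i + 1 + 1 + m = i + 1 + m' := by
  rw [← h, add_assoc (i + 1), add_comm 1 m]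

/-- value of the next state at the last coordinate -/
theorem st_last (i : Fin (d + 2)) (e : Fin (d + 2) → V) :
    (stOf (i + 1) e).1 (Fin.last d) = e i := by
  show e (i + 1 + 1 + (Fin.last d).castSucc) = e i
  rw [idx_step i _ (Fin.last (d + 1)) (by
    rw [Fin.coeSucc_eq_succ, Fin.succ_last]), idx_last]

theorem st_init (i : Fin (d + 2)) (e : Fin (d + 2) → V) :
    Fin.init (stOf (i + 1) e).1 = Fin.tail (stOf i e).1 := by
  funext j
  show e (i + 1 + 1 + (j.castSucc).castSucc) = e (i + 1 + (j.succ).castSucc)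
  rw [idx_step i _ ((j.succ).castSucc) (by
    rw [Fin.coeSucc_eq_succ, Fin.succ_castSucc])]

theorem st_time (i : Fin (d + 2)) (e : Fin (d + 2) → V) :
    (stOf (i + 1) e).2 = (stOf i e).2 + 1 := rfl

/-- the map `(i, a) ↦ (stOf i a, a i)` -/
def Phi (q : Fin (d + 2) × (Fin (d + 2) → V)) : Sta V d × V := (stOf q.1 q.2, q.2 q.1)

theorem phi_inj : Injective (Phi (V := V) (d := d)) := by
  rintro ⟨i, a⟩ ⟨i', a'⟩ h
  have h1 : stOf i a = stOf i' a' := congrArg Prod.fst h
  have h2 : a i = a' i' := congrArg Prod.snd h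
  have h3 : i + 1 = i' + 1 := congrArg Prod.snd h1
  have h4 : i = i' := add_right_cancel h3
  subst h4
  have h5 : (fun j : Fin (d + 1) => a (i + 1 + j.castSucc)) =
      fun j : Fin (d + 1) => a' (i + 1 + j.castSucc) := congrArg Prod.fst h1
  have h6 : ∀ m : Fin (d + 2), a (i + 1 + m) = a' (i + 1 + m) := by
    intro m
    refine Fin.lastCases ?_ (fun j => ?_) m
    · rw [idx_last]
      exact h2
    · exact congrFun h5 j
  have h7 : a = a' := by
    funext l
    have := h6 (l - (i + 1))
    rwa [add_sub_cancel] at this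
  rw [h7]

theorem phi_surj : Surjective (Phi (V := V) (d := d)) := by
  rintro ⟨⟨f, t⟩, v⟩
  have ht : ∀ t : Fin (d + 2), t - 1 + 1 = t := fun t => sub_add_cancel t 1
  refine ⟨((show Fin (d + 2) from t) - 1,
    fun l => (Fin.snoc (α := fun _ => V) f v : Fin (d + 2) → V) (l - (show Fin (d + 2) from t))), ?_⟩
  have e1 : (fun j : Fin (d + 1) => (Fin.snoc (α := fun _ => V) f v : Fin (d + 2) → V)
      ((show Fin (d + 2) from t) - 1 + 1 + j.castSucc - (show Fin (d + 2) from t))) = f := by
    funext j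
    rw [ht, add_sub_cancel_left, Fin.snoc_castSucc]
  have e2 : (Fin.snoc (α := fun _ => V) f v : Fin (d + 2) → V)
      ((show Fin (d + 2) from t) - 1 - (show Fin (d + 2) from t)) = v := by
    have key : ∀ t : Fin (d + 2), t - 1 - t = Fin.last (d + 1) := by
      intro t
      have h := Fin.last_add_one (d + 1)
      have h' : Fin.last (d + 1) = -1 := eq_neg_of_add_eq_zero_left h
      rw [h', sub_right_comm, sub_self, zero_sub]
    rw [key, Fin.snoc_last]
  exact Prod.ext (Prod.ext e1 (ht _)) e2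

variable [Fintype V] [DecidableEq V]

omit [Fintype V] in
theorem image_eq (i : Fin (d + 2)) (e : Fin (d + 2) → V) :
    insert (e i) (Finset.univ.image (stOf i e).1) = Finset.univ.image e := by
  ext v
  rw [Finset.mem_insert, Finset.mem_image, Finset.mem_image]
  constructor
  · rintro (h | ⟨j, -, h⟩)
    · exact ⟨i, Finset.mem_univ _, h.symm⟩
    · exact ⟨_, Finset.mem_univ _, h⟩
  · rintro ⟨l, -, h⟩
    have hl : l = i + 1 + (l - (i + 1)) := by rw [add_sub_cancel]
    revert hl
    refine Fin.lastCases (motive := fun m => l = i + 1 + m → _) ?_ (fun j => ?_) (l - (i + 1))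
    · intro hl
      rw [idx_last] at hl
      left
      rw [← h, hl]
    · intro hl
      right
      refine ⟨j, Finset.mem_univ _, ?_⟩
      rw [← h, hl]
      rfl

theorem st_iff (H : Finset (Finset V)) (i : Fin (d + 2)) (e : Fin (d + 2) → V) :
    St H (stOf i e) (stOf (i + 1) e) ↔ LE H e := by
  unfold St LE
  rw [st_last, st_init, image_eq]
  constructor
  · rintro ⟨-, -, h⟩
    exact h
  · intro h
    exact ⟨st_time i e, rfl, h⟩

/-- the map `(i, e) ↦ (stOf i e, stOf (i + 1) e)` -/
def Psi (q : Fin (d + 2) × (Fin (d + 2) → V)) : Sta V d × Sta V d :=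
  (stOf q.1 q.2, stOf (q.1 + 1) q.2)

omit [Fintype V] [DecidableEq V] in
theorem psi_inj : Injective (Psi (V := V) (d := d)) := by
  rintro ⟨i, a⟩ ⟨i', a'⟩ h
  apply phi_inj
  have h1 : stOf i a = stOf i' a' := congrArg Prod.fst h
  have h2 : stOf (i + 1) a = stOf (i' + 1) a' := congrArg Prod.snd h
  have h3 : a i = a' i' := by
    rw [← st_last i a, ← st_last i' a', h2]
  exact Prod.ext h1 h3

omit [Fintype V] in
theorem psi_range (H : Finset (Finset V)) (p : Sta V d × Sta V d) (hp : St H p.1 p.2) :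
    p ∈ Set.range (Psi (V := V) (d := d)) := by
  obtain ⟨s, s'⟩ := p
  obtain ⟨h1, h2, -⟩ := hp
  obtain ⟨⟨i, e⟩, he⟩ := phi_surj (d := d) (s, s'.1 (Fin.last d))
  have h3 : stOf i e = s := congrArg Prod.fst he
  have h4 : e i = s'.1 (Fin.last d) := congrArg Prod.snd he
  refine ⟨(i, e), Prod.ext h3 (Prod.ext ?_ ?_)⟩
  · show (stOf (i + 1) e).1 = s'.1
    have a1 := st_init i e
    have a2 := st_last i e
    funext j
    refine Fin.lastCases ?_ (fun j => ?_) j
    · rw [a2, h4]
    · have a3 := congrFun a1 j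
      have a4 := congrFun h2 j
      rw [h3] at a3
      exact a3.trans a4.symm
  · show (stOf (i + 1) e).2 = s'.2
    rw [st_time, h3]
    exact h1.symm

end

theorem ncard_prod_sum {ι α : Type} [Fintype ι] [Fintype α] (P : ι → α → Prop) :
    (({q : ι × α | P q.1 q.2}.ncard : ℕ) : ℝ) = ∑ i, ((Finset.univ.filter (P i)).card : ℝ) := by
  rw [Set.ncard_eq_toFinset_card']
  have h1 : ({q : ι × α | P q.1 q.2}.toFinset) =
      Finset.univ.filter (fun q : ι × α => P q.1 q.2) := by
    ext q
    simp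
  rw [h1, Finset.card_filter, Fintype.sum_prod_type]
  push_cast
  refine Finset.sum_congr rfl fun i _ => ?_
  rw [Finset.card_filter]
  push_cast
  rfl

theorem dens_mul {V : Type} [Fintype V] [Nonempty V] {k : ℕ} (P : (Fin k → V) → Prop) :
    dens P * (Fintype.card V : ℝ) ^ k = ((Finset.univ.filter P).card : ℝ) := by
  unfold dens
  have h : (Fintype.card (Fin k → V) : ℝ) = (Fintype.card V : ℝ) ^ k := by
    rw [Fintype.card_fun, Fintype.card_fin]
    push_cast
    rfl
  rw [h]
  have hn : (0 : ℝ) < (Fintype.card V : ℝ) ^ k := pow_pos (by exact_mod_cast Fintype.card_pos) k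
  exact div_mul_cancel₀ _ hn.ne'

theorem cnv : CnvStmt := by
  intro d V _ _ _ H hH
  have hn : (0 : ℝ) < (Fintype.card V : ℝ) := by exact_mod_cast Fintype.card_pos
  refine ⟨fun U => ⟨?_, ?_⟩, ?_⟩
  · intro i a v
    have h : stOf i (update a i v) = stOf i a := by
      refine Prod.ext ?_ rfl
      funext j
      show update a i v (i + 1 + j.castSucc) = a (i + 1 + j.castSucc)
      rw [update_of_ne]
      intro h
      have h1 : i + 1 + j.castSucc = i + 1 + Fin.last (d + 1) := by rw [idx_last, h]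
      have h2 := add_left_cancel h1
      exact (Fin.castSucc_lt_last j).ne h2
    show stOf i (update a i v) ∈ U ↔ stOf i a ∈ U
    rw [h]
  · have h1 := ncard_prod_sum (fun (i : Fin (d + 2)) (a : Fin (d + 2) → V) => stOf i a ∈ U)
    have h2 : {q : Fin (d + 2) × (Fin (d + 2) → V) | stOf q.1 q.2 ∈ U} =
        Phi ⁻¹' (U ×ˢ (Set.univ : Set V)) := by
      ext q
      simp [Phi]
    rw [h2, Set.ncard_preimage_of_injective_subset_range phi_inj
      (fun p _ => phi_surj p), Set.ncard_prod, Set.ncard_univ, Nat.card_eq_fintype_card] at h1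
    have h3 : (∑ i, dens (sys U i)) * (Fintype.card V : ℝ) ^ (d + 2) =
        (U.ncard : ℝ) * Fintype.card V := by
      rw [Finset.sum_mul]
      push_cast at h1
      rw [h1]
      exact Finset.sum_congr rfl fun i _ => dens_mul _
    have h4 : (∑ i, dens (sys U i)) * (Fintype.card V : ℝ) ^ (d + 1) * Fintype.card V =
        (U.ncard : ℝ) * Fintype.card V := by
      rw [← h3]
      ring
    exact (mul_right_cancel₀ hn.ne' h4).symm
  · intro A B
    have h1 := ncard_prod_sum (fun (i : Fin (d + 2)) (e : Fin (d + 2) → V) =>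
      LE H e ∧ sys A i e ∧ sys B (i + 1) e)
    have h2 : {q : Fin (d + 2) × (Fin (d + 2) → V) | LE H q.2 ∧ sys A q.1 q.2 ∧
        sys B (q.1 + 1) q.2} = Psi ⁻¹' {p : Sta V d × Sta V d | p.1 ∈ A ∧ p.2 ∈ B ∧ St H p.1 p.2} := by
      ext q
      show LE H q.2 ∧ stOf q.1 q.2 ∈ A ∧ stOf (q.1 + 1) q.2 ∈ B ↔
        stOf q.1 q.2 ∈ A ∧ stOf (q.1 + 1) q.2 ∈ B ∧ St H (stOf q.1 q.2) (stOf (q.1 + 1) q.2)
      rw [st_iff]
      tauto
    rw [h2, Set.ncard_preimage_of_injective_subset_range psi_inj
      (fun p hp => psi_range H p hp.2.2)] at h1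
    unfold stp
    rw [h1, Finset.sum_mul]
    exact Finset.sum_congr rfl fun i _ => (dens_mul _).symm

end Pool.Agent.KK.B.H19
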