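import Pool.Agent.KK.StmtsG

/-!
# Squad KK, row G_PAS: pass of an arbitrary vertex (G10)
-/

set_option autoImplicit false

namespace Pool.Agent.KK.E.H19

open Pool.Agent.KK Pool.Agent.KK.E

/-! ## Periodic words -/

theorem wt_append (u v : List Bool) : wt (u ++ v) = wt u + wt v := by
  unfold wt
  exact List.count_append

/-- windows of a periodic word -/
theorem wt_window (w : List Bool) : ∀ (n a : ℕ), a + w.length ≤ n * w.length →
    wt ((((List.replicate n w).flatten).drop a).take w.length) = wt w := by
  intro n
  induction n with
  | zero =>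
    intro a h
    have h1 : w.length = 0 := by omega
    rw [List.length_eq_zero_iff] at h1
    subst h1
    simp
  | succ n ih =>
    intro a h
    rw [List.replicate_succ, List.flatten_cons]
    have h0 : (n + 1) * w.length = n * w.length + w.length := by ring
    by_cases ha : w.length ≤ a
    · have h1 : (w ++ (List.replicate n w).flatten).drop a =
          ((List.replicate n w).flatten).drop (a - w.length) := by
        rw [List.drop_append, List.drop_eq_nil_of_le ha, List.nil_append]
      rw [h1]
      apply ih
      omega
    · push Not at ha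
      rcases n with _ | n
      · have h2 : a = 0 := by omega
        subst h2
        simp
      · rw [List.replicate_succ, List.flatten_cons]
        have h3 : (w ++ (w ++ (List.replicate n w).flatten)).drop a =
            w.drop a ++ (w ++ (List.replicate n w).flatten) := by
          rw [List.drop_append_of_le_length ha.le]
        rw [h3, List.take_append, List.take_of_length_le (by rw [List.length_drop]; omega),
          List.length_drop]
        have h4 : w.length - (w.length - a) = a := by omega
        rw [h4, List.take_append_of_le_length ha.le, wt_append]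
        have h5 : wt w = wt (w.take a) + wt (w.drop a) := by
          rw [← wt_append, List.take_append_drop]
        omega

/-- the word of the pass is a factor of a periodic word -/
theorem word_eq (b : Bool) (m : List Bool) (hm : m ≠ []) (a : ℕ)
    (ha : a + (m.length + 1) ≤ 4 * m.length + 1) :
    wt ((((m ++ [b]).tail ++ (m ++ b :: m) ++ (b :: m).dropLast).drop a).take (m.length + 1)) =
      wt (b :: m) := by
  obtain ⟨m0, mt, rfl⟩ := List.exists_cons_of_ne_nil hm
  set w : List Bool := b :: (m0 :: mt) with hw
  have hwl : w.length = (m0 :: mt).length + 1 := rfl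
  have h1 : (List.replicate 4 w).flatten =
      b :: m0 :: ((((m0 :: mt) ++ [b]).tail ++ ((m0 :: mt) ++ b :: (m0 :: mt)) ++
        (b :: (m0 :: mt)).dropLast) ++ [(b :: (m0 :: mt)).getLast (by simp)]) := by
    have h2 : (b :: (m0 :: mt)).dropLast ++ [(b :: (m0 :: mt)).getLast (by simp)] =
        b :: (m0 :: mt) := List.dropLast_append_getLast (by simp)
    rw [List.append_assoc, h2]
    simp [List.replicate_succ, hw]
  have h3 := wt_window w 4 (a + 2) (by rw [hwl]; omega)
  rw [h1, hwl] at h3
  have h4 : ((b :: m0 :: ((((m0 :: mt) ++ [b]).tail ++ ((m0 :: mt) ++ b :: (m0 :: mt)) ++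
        (b :: (m0 :: mt)).dropLast) ++ [(b :: (m0 :: mt)).getLast (by simp)])).drop (a + 2)) =
      (((((m0 :: mt) ++ [b]).tail ++ ((m0 :: mt) ++ b :: (m0 :: mt)) ++
        (b :: (m0 :: mt)).dropLast).drop a) ++ [(b :: (m0 :: mt)).getLast (by simp)]) := by
    rw [List.drop_succ_cons, List.drop_succ_cons, List.drop_append_of_le_length]
    simp only [List.length_append, List.length_tail, List.length_cons, List.length_nil,
      List.length_dropLast] at ha ⊢
    omega
  rw [h4, List.take_append_of_le_length] at h3
  · exact h3
  · simp only [List.length_append, List.length_tail, List.length_cons, List.length_nil,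
      List.length_dropLast, List.length_drop] at ha ⊢
    omega

/-! ## The link density on `Fin (k-1)` -/

theorem card_letters (m : List Bool) (n : ℕ) (hn : m.length = n) (t : Bool) :
    (Finset.univ.filter fun i : Fin n => m.getD i false = t).card = m.count t := by
  subst hn
  have h := Fin.card_filter_univ_eq_vector_get_eq_count t (⟨m, rfl⟩ : List.Vector Bool m.length)
  have h2 : List.Vector.toList (⟨m, rfl⟩ : List.Vector Bool m.length) = m := rfl
  rw [h2] at h
  rw [← h]
  congr 1
  ext i
  rw [Finset.mem_filter, Finset.mem_filter]
  have h3 : m.getD i false = List.Vector.get (⟨m, rfl⟩ : List.Vector Bool m.length) i := by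
    rw [List.getD_eq_getElem _ _ i.2]
    rfl
  rw [h3]

theorem exists_letters (m : List Bool) (n : ℕ) (hn : m.length = n) :
    ∃ φ : Fin (m.count true) ⊕ Fin (m.count false) → Fin n, Function.Bijective φ ∧
      (∀ i, m.getD (φ (Sum.inl i)) false = true) ∧ ∀ i, m.getD (φ (Sum.inr i)) false = false := by
  have c1 : Fintype.card {i : Fin n // m.getD i false = true} = m.count true := by
    rw [Fintype.card_subtype]
    exact card_letters m n hn true
  have c2 : Fintype.card {i : Fin n // ¬ m.getD i false = true} = m.count false := by
    rw [Fintype.card_subtype, ← card_letters m n hn false]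
    congr 1
    ext i
    simp
  let e1 : Fin (m.count true) ≃ {i : Fin n // m.getD i false = true} :=
    Fintype.equivOfCardEq (by rw [Fintype.card_fin, c1])
  let e2 : Fin (m.count false) ≃ {i : Fin n // ¬ m.getD i false = true} :=
    Fintype.equivOfCardEq (by rw [Fintype.card_fin, c2])
  refine ⟨(Equiv.sumCongr e1 e2).trans (Equiv.sumCompl _), Equiv.bijective _, ?_, ?_⟩
  · intro i
    exact (e1 i).2
  · intro i
    have := (e2 i).2
    simpa using this

theorem link_dens {V : Type} [Fintype V] [DecidableEq V] (h02 : StmtE02) (H : Finset (Finset V))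
    (X : Finset V) (hX : X.Nonempty) (hX' : (Xᶜ).Nonempty) (v : V) (m : List Bool) (n : ℕ)
    (hn : m.length = n) :
    dens (fun i : Fin n => sd X (m.getD i false)) (fun f => {v} ∪ Finset.univ.image f ∈ H) =
      D H X {v} (m.count true) (m.count false) := by
  obtain ⟨φ, hφ, h1, h2⟩ := exists_letters m n hn
  have hne : ∀ i : Fin n, ((fun i : Fin n => sd X (m.getD i false)) i).Nonempty := by
    intro i
    show (sd X (m.getD i false)).Nonempty
    unfold sd
    split_ifs
    · exact hX
    · exact hX'
  have h := h02 V (Fin n) (Fin (m.count true) ⊕ Fin (m.count false))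
    (fun i : Fin n => sd X (m.getD i false)) φ hne hφ.injective
    (fun f => {v} ∪ Finset.univ.image f ∈ H)
  have e1 : ((fun i : Fin n => sd X (m.getD i false)) ∘ φ) =
      lets X (m.count true) (m.count false) := by
    funext z
    rcases z with i | i
    · show sd X (m.getD (φ (Sum.inl i)) false) = X
      rw [h1 i]
      rfl
    · show sd X (m.getD (φ (Sum.inr i)) false) = Xᶜ
      rw [h2 i]
      rfl
  rw [e1] at h
  unfold D
  rw [← h]
  congr 1
  funext f
  have e2 : Finset.univ.image (f ∘ φ) = Finset.univ.image f := by
    ext u
    simp only [Finset.mem_image, Finset.mem_univ, true_and, Function.comp_apply]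
    constructor
    · rintro ⟨z, hz⟩
      exact ⟨φ z, hz⟩
    · rintro ⟨i, hi⟩
      obtain ⟨z, rfl⟩ := hφ.surjective i
      exact ⟨z, hi⟩
  rw [e2]

/-! ## The pass -/

theorem g_pas (h01 : StmtE01) (h02 : StmtE02) (h20 : StmtE20) (h00 : StmtG00) : StmtG10 := by
  intro V _ _ H X p q B δ ε κ τ η v b m hpq hA hnon hε hε1 hτ hτ1 hη0 hml hwt hD hκ he0 hδ Z hZ hvZ
  have hAp := hA.pos
  -- the box
  have hbig := hA.big
  have hn0 : (0 : ℝ) < (Fintype.card V : ℝ) := by
    by_contra hcon
    have h1 : (Fintype.card V : ℝ) = 0 := le_antisymm (not_lt.1 hcon) (by positivity)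
    rw [h1, mul_zero] at hbig
    have h2 : (0 : ℝ) < 100 * ((p + q + 2 : ℕ) : ℝ) ^ 2 * ((B + p + q + 2 : ℕ) : ℝ) := by
      have : (0 : ℝ) < ((p + q + 2 : ℕ) : ℝ) := by exact_mod_cast Nat.succ_pos _
      have : (0 : ℝ) < ((B + p + q + 2 : ℕ) : ℝ) := by exact_mod_cast Nat.succ_pos _
      positivity
    linarith
  have hX : X.Nonempty := by
    rw [← Finset.card_pos]
    have h1 := hA.lo
    have h2 := hA.small
    have h3 : (0 : ℝ) < (X.card : ℝ) := by
      have : 0 < (1 - δ) * (Fintype.card V : ℝ) / 2 := by
        have : 0 < 1 - δ := by linarith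
        positivity
      linarith
    exact_mod_cast h3
  have hX' : (Xᶜ).Nonempty := by
    rw [← Finset.card_pos]
    have h1 := hA.lo'
    have h2 := hA.small
    have h3 : (0 : ℝ) < ((Xᶜ).card : ℝ) := by
      have : 0 < (1 - δ) * (Fintype.card V : ℝ) / 2 := by
        have : 0 < 1 - δ := by linarith
        positivity
      linarith
    exact_mod_cast h3
  have hsd : ∀ t, (sd X t).Nonempty := by
    intro t
    unfold sd
    split_ifs
    · exact hX
    · exact hX'
  set N : ℕ := p + q + 1 with hN
  set L : ℕ := N + 1 + N with hL
  set c : List Bool := m ++ b :: m with hc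
  have hcl : c.length = L := by
    rw [hc, List.length_append, List.length_cons, hml, hL]
    omega
  let o : Fin L → Option V := fun i => if (i : ℕ) = N then some v else none
  have ho : ∀ (i : Fin L) (u : V), o i = some u → (i : ℕ) = N ∧ u = v := by
    intro i u h
    by_cases hi : (i : ℕ) = N
    · refine ⟨hi, ?_⟩
      have h1 : o i = some v := if_pos hi
      rw [h1] at h
      exact (Option.some.inj h).symm
    · have h1 : o i = none := if_neg hi
      rw [h1] at h
      cases h
  have hbx : ∀ i, (bx X (fun i : Fin L => c.getD i false) o i).Nonempty := by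
    intro i
    unfold bx
    cases h : o i with
    | none => exact hsd _
    | some u => exact Finset.singleton_nonempty u
  -- letters of `c`
  have hc1 : ∀ i : ℕ, i < N → c.getD i false = m.getD i false := by
    intro i hi
    rw [hc, List.getD_append _ _ _ _ (by omega)]
  have hc2 : ∀ i : ℕ, i < N → c.getD (N + 1 + i) false = m.getD i false := by
    intro i hi
    rw [hc, List.getD_append_right _ _ _ _ (by omega), hml]
    have : N + 1 + i - N = i + 1 := by omega
    rw [this, List.getD_cons_succ]
  -- the event
  let win : ℕ → Finset (Fin L) := fun a => Finset.univ.filter fun i : Fin L =>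
    a ≤ (i : ℕ) ∧ (i : ℕ) < a + (N + 1)
  let P : (Fin L → V) → Prop := fun f => ∀ a, a ≤ N → (win a).image f ∈ H
  let ψ : Fin N × Bool → Fin L := fun z => if z.2 then ⟨N + 1 + z.1, by omega⟩ else ⟨z.1, by omega⟩
  have hψt : ∀ i : Fin N, ((ψ (i, true) : Fin L) : ℕ) = N + 1 + i := fun i => rfl
  have hψf : ∀ i : Fin N, ((ψ (i, false) : Fin L) : ℕ) = i := fun i => rfl
  have hψ : Function.Injective ψ := by
    rintro ⟨i, s⟩ ⟨j, t⟩ h
    have h' := congrArg Fin.val h
    cases s <;> cases t
    · rw [hψf, hψf] at h'
      rw [Fin.ext h']
    · rw [hψf, hψt] at h'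
      have := i.2
      omega
    · rw [hψf, hψt] at h'
      have := j.2
      omega
    · rw [hψt, hψt] at h'
      have h2 : i = j := Fin.ext (by omega)
      rw [h2]
  have hboxψ : (bx X (fun i : Fin L => c.getD i false) o) ∘ ψ =
      fun z : Fin N × Bool => (fun i : Fin N => sd X (m.getD i false)) z.1 := by
    funext z
    obtain ⟨i, s⟩ := z
    have hi := i.2
    cases s
    · have h1 : o (ψ (i, false)) = none := by
        apply if_neg
        rw [hψf]
        omega
      show (o (ψ (i, false))).elim (sd X (c.getD (ψ (i, false) : Fin L) false)) (fun v => {v}) = _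
      rw [h1, hψf, hc1 i hi]
      rfl
    · have h1 : o (ψ (i, true)) = none := by
        apply if_neg
        rw [hψt]
        omega
      show (o (ψ (i, true))).elim (sd X (c.getD (ψ (i, true) : Fin L) false)) (fun v => {v}) = _
      rw [h1, hψt, hc2 i hi]
      rfl
  have hdens : τ ^ (2 ^ (p + q + 2)) ≤ dens (bx X (fun i : Fin L => c.getD i false) o) P := by
    have h1 := link_dens h02 H X hX hX' v m N hml
    have h2 := h20 V (Fin N) (fun i : Fin N => sd X (m.getD i false))
      (fun f => {v} ∪ Finset.univ.image f ∈ H) τ (fun i => hsd _) hτ.le (by rw [h1]; exact hD)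
    rw [Fintype.card_fin] at h2
    have h3 := h02 V (Fin L) (Fin N × Bool) (bx X (fun i : Fin L => c.getD i false) o) ψ hbx hψ
      (fun g => ∀ s : Fin N → Bool, {v} ∪ Finset.univ.image (fun i => g (i, s i)) ∈ H)
    rw [hboxψ] at h3
    have h4 : τ ^ (2 ^ (p + q + 2)) ≤ τ ^ (2 ^ N) := by
      apply pow_le_pow_of_le_one hτ.le hτ1
      exact Nat.pow_le_pow_right (by norm_num) (by omega)
    refine (h4.trans h2).trans ?_
    rw [← h3]
    refine (h01 V (Fin L) _ hbx).2.1 _ _ ?_
    intro f hf hQ a ha
    have h5 := hQ (fun i => decide ((i : ℕ) < a))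
    have hfN : f ⟨N, by omega⟩ = v := by
      have h6 := hf ⟨N, by omega⟩
      have h7 : o ⟨N, by omega⟩ = some v := if_pos rfl
      unfold bx at h6
      rw [h7] at h6
      exact Finset.mem_singleton.1 h6
    have h8 : (win a).image f = {v} ∪ Finset.univ.image
        (fun i : Fin N => (f ∘ ψ) (i, decide ((i : ℕ) < a))) := by
      ext u
      rw [Finset.mem_image, Finset.mem_union, Finset.mem_singleton, Finset.mem_image]
      constructor
      · rintro ⟨i, hi, rfl⟩
        rw [Finset.mem_filter] at hi
        obtain ⟨-, hi1, hi2⟩ := hi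
        by_cases h9 : (i : ℕ) = N
        · left
          have : i = ⟨N, by omega⟩ := Fin.ext h9
          rw [this, hfN]
        · right
          by_cases h10 : (i : ℕ) < N
          · refine ⟨⟨i, h10⟩, Finset.mem_univ _, ?_⟩
            have : decide (i.val < a) = false := by
              rw [decide_eq_false_iff_not]
              omega
            show f (ψ (⟨i, h10⟩, decide (i.val < a))) = f i
            rw [this]
            congr 1
          · refine ⟨⟨i - (N + 1), by omega⟩, Finset.mem_univ _, ?_⟩
            have : decide (i.val - (N + 1) < a) = true := by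
              rw [decide_eq_true_iff]
              omega
            show f (ψ (⟨i - (N + 1), by omega⟩, decide (i.val - (N + 1) < a))) = f i
            rw [this]
            congr 1
            apply Fin.ext
            rw [hψt]
            show N + 1 + (i.val - (N + 1)) = i.val
            omega
      · rintro (rfl | ⟨i, -, rfl⟩)
        · refine ⟨⟨N, by omega⟩, ?_, hfN⟩
          rw [Finset.mem_filter]
          refine ⟨Finset.mem_univ _, ?_, ?_⟩
          · show a ≤ N
            exact ha
          · show N < a + (N + 1)
            omega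
        · have hi := i.2
          refine ⟨ψ (i, decide (i.val < a)), ?_, rfl⟩
          rw [Finset.mem_filter]
          refine ⟨Finset.mem_univ _, ?_⟩
          by_cases h9 : i.val < a
          · rw [decide_eq_true h9, hψt]
            omega
          · rw [decide_eq_false h9, hψf]
            omega
    rw [h8]
    exact h5
  have hτk : 0 < τ ^ (2 ^ (p + q + 2)) := pow_pos hτ _
  obtain ⟨f, hinj, hfZ, hfo, hfX, -, hOK⟩ := h00 V H X Z p q B L δ ε (τ ^ (2 ^ (p + q + 2))) (η 0) η c
    (m ++ [b]).tail (b :: m).dropLast o P hA hε hε1 hτk hη0 hcl (by omega)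
    (by rw [List.length_tail, List.length_append, hml]; rfl)
    (by rw [List.length_dropLast, List.length_cons, hml]; rfl)
    (by
      intro i i' u h h'
      exact Fin.ext ((ho i u h).1.trans (ho i' u h').1.symm))
    (by
      intro i u h
      rw [(ho i u h).2]
      exact hvZ)
    hdens
    (by
      intro a ha
      by_cases hcase : N ≤ a ∧ a ≤ 2 * N
      · left
        refine ⟨hcase.1, by omega, ?_⟩
        intro f _ hP
        have h1 := hP (a - N) (by omega)
        have h2 : (Finset.univ.filter fun i : Fin L => a ≤ (i : ℕ) + (p + q + 1) ∧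
            (i : ℕ) + (p + q + 1) < a + (p + q + 2)) = win (a - N) := by
          ext i
          show _ ↔ i ∈ Finset.univ.filter fun i : Fin L =>
            a - N ≤ (i : ℕ) ∧ (i : ℕ) < a - N + (N + 1)
          rw [Finset.mem_filter, Finset.mem_filter]
          constructor
          · rintro ⟨h3, h4, h5⟩
            exact ⟨h3, by omega, by omega⟩
          · rintro ⟨h3, h4, h5⟩
            exact ⟨h3, by omega, by omega⟩
        rw [h2]
        exact h1
      · right
        have hm : m ≠ [] := by
          intro h
          rw [h, List.length_nil] at hml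
          omega
        have hw := word_eq b m hm a (by rw [hml]; omega)
        rw [hml] at hw
        have hw' : wt ((((m ++ [b]).tail ++ c ++ (b :: m).dropLast).drop a).take (p + q + 2)) =
            wt (b :: m) := hw
        refine ⟨by rw [hw']; exact hwt, ?_, ?_⟩
        · intro i u h1 h2 h3
          have := (ho i u h3).1
          omega
        · intro M' hM'
          have hM0 : M' = ∅ := by
            rw [Finset.eq_empty_iff_forall_notMem]
            intro u hu
            obtain ⟨i, h1, h2, h3⟩ := (hM' u).1 hu
            have := (ho i u h3).1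
            omega
          subst hM0
          refine ⟨hnon, ?_, ?_, ?_⟩
          · simp
          · simp
          · simp)
    (hZ.trans hκ) he0 hδ
  -- the final lists
  have hfl : (List.ofFn f).length = L := List.length_ofFn
  have hNL : N < (List.ofFn f).length := by rw [hfl]; omega
  have hfv : f ⟨N, by omega⟩ = v := hfo _ v (if_pos rfl)
  have hsplit : List.ofFn f = (List.ofFn f).take N ++ v :: (List.ofFn f).drop (N + 1) := by
    have h1 : (List.ofFn f)[N] :: (List.ofFn f).drop (N + 1) = (List.ofFn f).drop N :=
      List.getElem_cons_drop hNL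
    have h2 : (List.ofFn f)[N] = v := by
      rw [List.getElem_ofFn]
      exact hfv
    rw [h2] at h1
    rw [h1, List.take_append_drop]
  have hlet : ∀ i : ℕ, ∀ hi : i < L, i ≠ N → decide (f ⟨i, hi⟩ ∈ X) = c.getD i false := by
    intro i hi hiN
    have h1 := hfX ⟨i, hi⟩ (if_neg hiN)
    by_cases h2 : f ⟨i, hi⟩ ∈ X
    · rw [decide_eq_true h2]
      exact (h1.1 h2).symm
    · rw [decide_eq_false h2]
      have h3 : ¬ c.getD i false = true := fun h => h2 (h1.2 h)
      simpa using h3
  refine ⟨(List.ofFn f).take N, (List.ofFn f).drop (N + 1), ?_, ?_, ?_, ?_, ?_⟩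
  · apply List.ext_getElem
    · rw [List.length_map, List.length_take, hfl, hml]
      omega
    · intro i h1 h2
      rw [List.getElem_map, List.getElem_take, List.getElem_ofFn]
      have h3 : i < N := by rw [hml] at h2; exact h2
      rw [hlet i (by omega) (by omega), hc1 i h3, List.getD_eq_getElem _ _ h2]
  · apply List.ext_getElem
    · rw [List.length_map, List.length_drop, hfl, hml]
      omega
    · intro i h1 h2
      rw [List.getElem_map, List.getElem_drop, List.getElem_ofFn]
      have h3 : i < N := by rw [hml] at h2; exact h2
      rw [hlet (N + 1 + i) (by omega) (by omega), hc2 i h3, List.getD_eq_getElem _ _ h2]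
  · rw [← hsplit]
    exact List.nodup_ofFn.2 hinj
  · rw [← hsplit]
    intro u hu
    rw [List.mem_ofFn] at hu
    obtain ⟨i, rfl⟩ := hu
    exact hfZ i
  · rw [← hsplit]
    exact hOK

end Pool.Agent.KK.E.H19
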